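import Pool.Agent.helper52.ED.SpecP

set_option autoImplicit false

open Complex Metric Set Filter Topology MeasureTheory
open Pool.Agent.helper98.ILF Pool.Agent.helper16.Multibrot HY
open DH (co Tow yv jj FA REL)

noncomputable section

namespace ED

/-- logarithm of the minimum. -/
theorem PSS_log (g A : ℝ) (e : ℕ) (hg : 0 < g) (hg1 : g ≤ 1) (hA : 0 < A) :
    1 + Real.log (1 / min 1 (g ^ e / A)) ≤ (1 + e + |Real.log A|) * (1 + Real.log (1 / g)) := by
  have hlg : 0 ≤ Real.log (1 / g) := Real.log_nonneg (by rw [le_div_iff₀ hg]; linarith)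
  have he : (0 : ℝ) ≤ (e : ℝ) := Nat.cast_nonneg e
  have habs := abs_nonneg (Real.log A)
  have hge : 0 < g ^ e := pow_pos hg e
  have hbase : 1 ≤ (1 + e + |Real.log A|) * (1 + Real.log (1 / g)) := by nlinarith [mul_nonneg he hlg, mul_nonneg habs hlg]
  rcases le_total 1 (g ^ e / A) with h | h
  · rw [min_eq_left h]
    simp only [div_one, Real.log_one, add_zero]
    exact hbase
  · rw [min_eq_right h]
    have h1 : Real.log (1 / (g ^ e / A)) = e * Real.log (1 / g) + Real.log A := by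
      rw [one_div_div, Real.log_div hA.ne' hge.ne', Real.log_pow, Real.log_div one_ne_zero hg.ne', Real.log_one]
      ring
    rw [h1]
    nlinarith [mul_nonneg he hlg, mul_nonneg habs hlg, le_abs_self (Real.log A)]

theorem PSS (hCTK : CTK_stmt) (hTLO : TLO_stmt) (hMON : MON_stmt) (hORB : ORB_stmt) (hPHP : PHP_stmt) : PSS_stmt := by
  intro n r M hn hr hM hCL
  obtain ⟨C₀, hC₀, hctk⟩ := hCTK n r M hn hr hM hCL
  obtain ⟨C₁, e, hC₁, he, htlo⟩ := hTLO
  refine ⟨C₀ * (1 + e + |Real.log (16 * C₁)|), ?_, ?_⟩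
  · have := abs_nonneg (Real.log (16 * C₁))
    positivity
  intro c hc hd Φ b k p t hFA g σ T' hg hg1 hσ hσ1 hT' hga
  obtain ⟨hSG, hOrb⟩ := hORB n c Φ b M k p t hFA
  have hpos : ∀ i ≤ t, 0 < PhV n c (Φ k) (yv Φ n c k p) i := fun i hi =>
    ((hPHP n c (VV n c k) (Φ k) (Φ (k + 1)) (b k) M (yv Φ n c k p) t hSG hM hOrb).1 i hi).1
  set κ : ℝ := min 1 (g ^ e / (16 * C₁)) with hκdef
  have hκ : 0 < κ := lt_min one_pos (by positivity)
  have hκ1 : κ ≤ 1 := min_le_left _ _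
  have hκ2 : κ ≤ g ^ e / (16 * C₁) := min_le_right _ _
  have key := hctk c hc hd (VV n c k) (Φ k) (Φ (k + 1)) (b k) hSG (yv Φ n c k p) t hOrb σ κ
    ((Finset.range t).filter (fun i => T' < i ∧ σ ≤ 1 - ‖yv Φ n c k p i‖)) hσ hσ1 hκ hκ1 ?_
  · refine key.trans ?_
    have hl := PSS_log g (16 * C₁) e hg hg1 (by positivity)
    calc C₀ / σ * (1 + Real.log (1 / κ)) ≤ C₀ / σ * ((1 + e + |Real.log (16 * C₁)|) * (1 + Real.log (1 / g))) :=
          mul_le_mul_of_nonneg_left hl (by positivity)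
      _ = C₀ * (1 + e + |Real.log (16 * C₁)|) / σ * (1 + Real.log (1 / g)) := by ring
  · intro i hi
    rw [Finset.mem_filter, Finset.mem_range] at hi
    obtain ⟨hit, hTi, hσi⟩ := hi
    refine ⟨hit, hσi, ?_⟩
    have h1 := hMON n r M hn hr hM hCL c hc hd (VV n c k) (Φ k) (Φ (k + 1)) (b k) hSG (yv Φ n c k p) t hOrb T' i
      hTi.le hit.le
    have h2 := (htlo n c Φ b M k p t hM hFA T' hT').1
    have h3 : g ^ e ≤ (1 - ‖yv Φ n c (k + t - T') p T'‖) ^ e := pow_le_pow_left₀ hg.le hga e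
    have hPt := hpos t le_rfl
    have hPT := hpos T' hT'.le
    have h4 : g ^ e * PhV n c (Φ k) (yv Φ n c k p) t ≤ C₁ * PhV n c (Φ k) (yv Φ n c k p) T' :=
      (mul_le_mul_of_nonneg_right h3 hPt.le).trans h2
    have h5 : g ^ e * PhV n c (Φ k) (yv Φ n c k p) t ≤ 16 * C₁ * PhV n c (Φ k) (yv Φ n c k p) i := by nlinarith
    calc κ * PhV n c (Φ k) (yv Φ n c k p) t ≤ g ^ e / (16 * C₁) * PhV n c (Φ k) (yv Φ n c k p) t :=
          mul_le_mul_of_nonneg_right hκ2 hPt.le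
      _ = g ^ e * PhV n c (Φ k) (yv Φ n c k p) t / (16 * C₁) := by ring
      _ ≤ PhV n c (Φ k) (yv Φ n c k p) i := by
          rw [div_le_iff₀ (by positivity)]
          linarith

end ED
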